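import Mathlib

set_option autoImplicit false

namespace Pool.Agent.Results.MP_a1f67d_pr.Counterexample

open MeasureTheory ProbabilityTheory Filter Topology Set

noncomputable def coin : Measure Bool := (PMF.uniformOfFintype Bool).toMeasure

instance : IsProbabilityMeasure coin := by unfold coin; infer_instance

lemma coin_single (b : Bool) : coin {b} = 2⁻¹ := by
  unfold coin
  rw [PMF.toMeasure_apply_singleton _ _ (measurableSet_singleton _)]
  simp

lemma coin_not : coin.map (fun b => !b) = coin := by
  apply Measure.ext_of_singleton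
  intro b
  rw [Measure.map_apply (by fun_prop) (measurableSet_singleton _)]
  have : (fun b => !b) ⁻¹' {b} = {!b} := by
    ext x; cases x <;> cases b <;> simp
  rw [this, coin_single, coin_single]

noncomputable def mu : Measure (ℤ → Bool) := Measure.infinitePi (fun _ => coin)

instance : IsProbabilityMeasure mu := by unfold mu; infer_instance

def S (n : ℤ) (ω : ℤ → Bool) : ℤ → Bool := fun i => ω (i + n)

lemma S_meas (n : ℤ) : Measurable (S n) := by unfold S; fun_prop

lemma S_pres (n : ℤ) : MeasurePreserving (S n) mu mu := by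
  refine ⟨S_meas n, ?_⟩
  have h := Measure.infinitePi_map_piCongrLeft (X := fun _ : ℤ => Bool) (fun _ => coin)
    (Equiv.addRight n).symm
  have e : (MeasurableEquiv.piCongrLeft (fun _ : ℤ => Bool) (Equiv.addRight n).symm :
      (ℤ → Bool) → ℤ → Bool) = S n := by
    funext ω i
    have := Equiv.piCongrLeft_apply_apply (fun _ : ℤ => Bool) (Equiv.addRight n).symm ω (i + n)
    simpa [S, MeasurableEquiv.coe_piCongrLeft] using this
  rw [e] at h
  exact h

def flip (ω : ℤ → Bool) : ℤ → Bool := fun i => if i = 0 then !ω i else ω i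

lemma flip_pres : MeasurePreserving flip mu mu := by
  have hm : ∀ i : ℤ, Measurable (fun b : Bool => if i = 0 then !b else b) := fun i =>
    measurable_of_countable _
  refine ⟨measurable_pi_lambda _ fun i => (hm i).comp (measurable_pi_apply i), ?_⟩
  have h := Measure.infinitePi_map_pi (X := fun _ : ℤ => Bool) (fun _ => coin) hm
  refine h.trans ?_
  unfold mu
  congr 1
  funext i
  split_ifs
  · exact coin_not
  · exact Measure.map_id

def C : Set (ℤ → Bool) := {ω | ω 0 = true}

lemma coord_meas (i : ℤ) : MeasurableSet {ω : ℤ → Bool | ω i = true} :=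
  measurableSet_eq_fun (measurable_pi_apply i) measurable_const

lemma half (B : Set (ℤ → Bool)) (hB : MeasurableSet B) (h : flip ⁻¹' B = B) :
    mu.real (C ∩ B) = mu.real B / 2 := by
  have hC : MeasurableSet C := coord_meas 0
  have h1 : flip ⁻¹' (C ∩ B) = B \ C := by
    rw [preimage_inter, h]
    ext ω
    simp [C, flip, and_comm]
  have h2 : mu.real (B \ C) = mu.real (C ∩ B) := by
    rw [← h1, flip_pres.measureReal_preimage (hC.inter hB).nullMeasurableSet]
  have h3 := measureReal_inter_add_sdiff (μ := mu) (s := B) hC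
  rw [inter_comm] at h3
  linarith

lemma muC : mu.real C = 1 / 2 := by
  have := half univ MeasurableSet.univ rfl
  simpa using this

lemma mix (A : Set (ℤ → Bool)) (hA : MeasurableSet A) :
    Tendsto (fun n : ℕ => mu.real (C ∩ S n ⁻¹' A)) atTop (𝓝 (mu.real A / 2)) := by
  have hC : MeasurableSet C := coord_meas 0
  induction A, hA using MeasurableSpace.induction_on_inter
    (generateFrom_measurableCylinders (α := fun _ : ℤ => Bool)).symm
    isPiSystem_measurableCylinders with
  | empty => simp
  | basic t ht =>
    obtain ⟨s, T, hT, rfl⟩ := (mem_measurableCylinders _).mp ht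
    have hm : MeasurableSet (cylinder s T) := MeasurableSet.cylinder (α := fun _ : ℤ => Bool) s hT
    refine tendsto_const_nhds.congr' ?_
    obtain ⟨M, hM⟩ := s.bddBelow
    filter_upwards [eventually_gt_atTop (-M).toNat] with n hn
    rw [half _ (S_meas n hm), (S_pres n).measureReal_preimage hm.nullMeasurableSet]
    ext ω
    simp only [mem_preimage, mem_cylinder]
    have : s.restrict (S n (flip ω)) = s.restrict (S n ω) := by
      funext i
      have h1 : M ≤ i.1 := hM i.2
      have h2 : i.1 + n ≠ 0 := by omega
      simp [Finset.restrict, S, flip, h2]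
    rw [this]
  | compl t ht ih =>
    have e : ∀ n : ℕ, mu.real (C ∩ S n ⁻¹' tᶜ) = 1 / 2 - mu.real (C ∩ S n ⁻¹' t) := by
      intro n
      have h3 := measureReal_inter_add_sdiff (μ := mu) (s := C) (S_meas n ht)
      rw [muC] at h3
      rw [preimage_compl, ← sdiff_eq]
      linarith
    simp only [e]
    rw [probReal_compl_eq_one_sub ht, sub_div]
    exact tendsto_const_nhds.sub ih
  | iUnion f hd hf ih =>
    have e : ∀ n : ℕ, mu.real (C ∩ S n ⁻¹' ⋃ i, f i) = ∑' i, mu.real (C ∩ S n ⁻¹' f i) := by
      intro n
      rw [preimage_iUnion, inter_iUnion, measureReal_def, measure_iUnion, ENNReal.tsum_toReal_eq]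
      · rfl
      · exact fun i => measure_ne_top _ _
      · intro i j hij
        exact ((hd hij).preimage _).mono inter_subset_right inter_subset_right
      · exact fun i => hC.inter (S_meas n (hf i))
    have e2 : mu.real (⋃ i, f i) = ∑' i, mu.real (f i) := by
      rw [measureReal_def, measure_iUnion hd hf, ENNReal.tsum_toReal_eq]
      · rfl
      · exact fun i => measure_ne_top _ _
    have hs : Summable (fun i => mu.real (f i)) := by
      apply ENNReal.summable_toReal
      rw [← measure_iUnion hd hf]
      exact measure_ne_top _ _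
    simp only [e]
    rw [e2, ← tsum_div_const]
    refine tendsto_tsum_of_dominated_convergence hs ih (Eventually.of_forall fun n i => ?_)
    rw [Real.norm_of_nonneg measureReal_nonneg,
      ← (S_pres n).measureReal_preimage (hf i).nullMeasurableSet]
    exact measureReal_mono inter_subset_right

def Phi (ω : ℤ → Bool) : ℕ → ℤ → Bool := fun k => S k ω

lemma Phi_meas : Measurable Phi := measurable_pi_lambda _ fun k => S_meas k

lemma cond_real (B : Set (ℤ → Bool)) : (mu[|C]).real B = 2 * mu.real (C ∩ B) := by
  have hC : MeasurableSet C := coord_meas 0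
  rw [measureReal_def, cond_apply hC, ENNReal.toReal_mul, ENNReal.toReal_inv, ← measureReal_def,
    muC, ← measureReal_def]
  norm_num

def shift {E : Type} (n : ℕ) (x : ℕ → E) : ℕ → E := fun k => x (n + k)

theorem result : ∃ (E : Type) (_ : MeasurableSpace E) (Ω : Type) (_ : MeasurableSpace Ω)
    (P P' : Measure Ω) (X X' : Ω → ℕ → E), IsProbabilityMeasure P ∧ IsProbabilityMeasure P' ∧
    Measurable X ∧ Measurable X' ∧
    (∀ A, MeasurableSet A → Tendsto (fun n => P.real {ω | shift n (X ω) ∈ A}) atTop
      (𝓝 (P'.real {ω | X' ω ∈ A}))) ∧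
    ∀ n, ∃ A, MeasurableSet A ∧
      1 / 2 ≤ |P.real {ω | shift n (X ω) ∈ A} - P'.real {ω | X' ω ∈ A}| := by
  have hC0 : mu C ≠ 0 := by
    intro h
    have := muC
    rw [measureReal_def, h] at this
    norm_num at this
  have hs : ∀ (n : ℕ) (ω : ℤ → Bool), shift n (Phi ω) = Phi (S n ω) := by
    intro n ω
    funext k i
    simp only [shift, Phi, S]
    congr 1
    push_cast
    ring
  refine ⟨ℤ → Bool, inferInstance, ℤ → Bool, inferInstance, mu[|C], mu, Phi, Phi,
    cond_isProbabilityMeasure hC0, inferInstance, Phi_meas, Phi_meas, fun A hA => ?_, fun n => ?_⟩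
  · have h := (mix _ (Phi_meas hA)).const_mul 2
    rw [mul_div_cancel₀ _ (two_ne_zero)] at h
    simp only [cond_real, hs]
    exact h
  · refine ⟨{x | x 0 (-n) = true}, ?_, ?_⟩
    · exact measurableSet_eq_fun (by fun_prop) measurable_const
    · have h1 : {ω | shift n (Phi ω) ∈ {x : ℕ → ℤ → Bool | x 0 (-n) = true}} = C := by
        ext ω; simp [shift, Phi, S, C]
      have h2 : {ω | Phi ω ∈ {x : ℕ → ℤ → Bool | x 0 (-n) = true}} = S (-n) ⁻¹' C := by
        ext ω; simp [Phi, S, C]
      rw [h1, h2, cond_real, inter_self,
        (S_pres _).measureReal_preimage (s := C) (coord_meas 0).nullMeasurableSet, muC]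
      norm_num

end Pool.Agent.Results.MP_a1f67d_pr.Counterexample
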